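import Pool.Agent.helper84.ZD.SpecA

/-!
# Project zd (MP_4467b5_nt), module POI: Poisson summation
-/

set_option autoImplicit false

open Complex MeasureTheory

namespace Pool.Agent.ZD

open Pool.Agent.helper84.DM Pool.Agent.helper78.ED Pool.Agent.DH

open scoped FourierTransform

/-- The function of the Poisson formula. -/
noncomputable def POI_g (X u y : ℝ) : ℂ :=
  ((Phi (y / X) : ℝ) : ℂ) * Complex.exp (-(((u * Real.log y : ℝ) : ℂ) * I))

theorem POI_g_left (hP : PHS_stmt) {X u y : ℝ} (hX : 0 < X) (hy : y ≤ X / 2) :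
    POI_g X u y = 0 := by
  have h1 : Phi (y / X) = 0 := by
    refine hP.2.2.2.2.1 _ ?_
    rw [div_le_iff₀ hX]
    linarith
  rw [POI_g, h1, Complex.ofReal_zero, zero_mul]

theorem POI_g_right (hP : PHS_stmt) {X u y : ℝ} (hX : 0 < X) (hy : 64 * X ≤ y) :
    POI_g X u y = 0 := by
  have h1 : Phi (y / X) = 0 := by
    refine hP.2.2.2.2.2 _ ?_
    rw [le_div_iff₀ hX]
    exact hy
  rw [POI_g, h1, Complex.ofReal_zero, zero_mul]

theorem POI_g_cont (hP : PHS_stmt) {X : ℝ} (hX : 0 < X) (u : ℝ) : Continuous (POI_g X u) := by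
  rw [continuous_iff_continuousAt]
  intro y
  rcases eq_or_ne y 0 with h0 | h0
  · subst h0
    have h1 : (fun _ : ℝ => (0 : ℂ)) =ᶠ[nhds 0] POI_g X u := by
      have h2 : Set.Iio (X / 2) ∈ nhds (0 : ℝ) := Iio_mem_nhds (by linarith)
      filter_upwards [h2] with y hy
      exact (POI_g_left hP hX (le_of_lt hy)).symm
    exact (continuousAt_const).congr h1
  · have hc : Continuous Phi := hP.1.continuous
    unfold POI_g
    refine ContinuousAt.mul ?_ ?_
    · exact (Complex.continuous_ofReal.comp (hc.comp (continuous_id.div_const X))).continuousAt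
    · refine (Complex.continuous_exp).continuousAt.comp ?_
      refine ContinuousAt.neg (ContinuousAt.mul ?_ continuousAt_const)
      refine Complex.continuous_ofReal.continuousAt.comp ?_
      exact continuousAt_const.mul (Real.continuousAt_log h0)

theorem POI_fourier (hP : PHS_stmt) {X : ℝ} (hX : 0 < X) (u w : ℝ) :
    𝓕 (POI_g X u) w =
      (X : ℂ) * (Complex.exp (-(((u * Real.log X : ℝ) : ℂ) * I)) * HH u (w * X)) := by
  rw [Real.fourier_real_eq_integral_exp_smul]
  have h1 := MeasureTheory.Measure.integral_comp_mul_left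
    (fun v : ℝ => Complex.exp (((-2 * Real.pi * v * w : ℝ) : ℂ) * Complex.I) • POI_g X u v) X
  have h2 : ∀ v : ℝ, Complex.exp (((-2 * Real.pi * (X * v) * w : ℝ) : ℂ) * Complex.I) •
      POI_g X u (X * v) = Complex.exp (-(((u * Real.log X : ℝ) : ℂ) * I)) *
        (((Phi v : ℝ) : ℂ) * Complex.exp (-(((u * Real.log v : ℝ) : ℂ) * I)) *
          ee (-(w * X * v))) := by
    intro v
    rcases le_or_gt v 0 with hv | hv
    · have h3 : Phi v = 0 := hP.2.2.2.2.1 v (by linarith)
      rw [POI_g_left hP hX (by nlinarith), h3, Complex.ofReal_zero]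
      simp
    · rw [POI_g, mul_div_cancel_left₀ v hX.ne', Real.log_mul hX.ne' hv.ne', ee, smul_eq_mul]
      have h4 : Complex.exp (-(((u * (Real.log X + Real.log v) : ℝ) : ℂ) * I)) =
          Complex.exp (-(((u * Real.log X : ℝ) : ℂ) * I)) *
            Complex.exp (-(((u * Real.log v : ℝ) : ℂ) * I)) := by
        rw [← Complex.exp_add]
        congr 1
        push_cast
        ring
      have h5 : (((-2 * Real.pi * (X * v) * w : ℝ) : ℂ) * Complex.I) =
          (((2 * Real.pi * (-(w * X * v)) : ℝ) : ℂ) * I) := by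
        push_cast
        ring
      rw [h4, h5]
      ring
  have h3 : (∫ v : ℝ, Complex.exp (((-2 * Real.pi * (X * v) * w : ℝ) : ℂ) * Complex.I) •
      POI_g X u (X * v)) = Complex.exp (-(((u * Real.log X : ℝ) : ℂ) * I)) * HH u (w * X) := by
    rw [HH, ← MeasureTheory.integral_const_mul]
    exact integral_congr_ae (Filter.Eventually.of_forall h2)
  rw [h3] at h1
  rw [h1, abs_of_pos (inv_pos.2 hX), Complex.real_smul]
  push_cast
  have hX' : (X : ℂ) ≠ 0 := by exact_mod_cast hX.ne'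
  rw [← mul_assoc, mul_inv_cancel₀ hX', one_mul]

theorem POI_sum (hP : PHS_stmt) {X : ℝ} (hX : 0 < X) (u : ℝ) :
    ∑' n : ℤ, POI_g X u (0 + (n : ℝ)) = BX X u := by
  rw [tsum_eq_sum (s := (Finset.Icc 1 ⌊64 * X⌋₊).map Nat.castEmbedding), Finset.sum_map, BX]
  · refine Finset.sum_congr rfl fun k hk => ?_
    have hk1 : 1 ≤ k := (Finset.mem_Icc.1 hk).1
    have hk0 : (k : ℂ) ≠ 0 := by
      have : k ≠ 0 := by omega
      exact_mod_cast this
    have h1 : (Nat.castEmbedding k : ℤ) = (k : ℤ) := rfl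
    rw [h1, zero_add, Int.cast_natCast, POI_g, Complex.cpow_def_of_ne_zero hk0,
      ← Complex.natCast_log]
    congr 2
    push_cast
    ring
  · intro n hn
    rw [zero_add]
    rcases le_or_gt n 0 with h0 | h0
    · refine POI_g_left hP hX ?_
      have : (n : ℝ) ≤ 0 := by exact_mod_cast h0
      linarith
    · refine POI_g_right hP hX ?_
      by_contra hcon
      rw [not_le] at hcon
      refine hn (Finset.mem_map.2 ⟨n.toNat, Finset.mem_Icc.2 ⟨by omega, ?_⟩, ?_⟩)
      · refine Nat.le_floor ?_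
        have h1 : ((n.toNat : ℤ) : ℝ) = (n : ℝ) := by rw [Int.toNat_of_nonneg h0.le]
        rw [Int.cast_natCast] at h1
        rw [h1]
        exact hcon.le
      · exact Int.toNat_of_nonneg h0.le

theorem POI_summable (hP : PHS_stmt) (hI : IBU_stmt) {X : ℝ} (hX : 0 < X) (u : ℝ) :
    Summable (fun m : ℤ => HH u ((m : ℝ) * X)) := by
  obtain ⟨C, hC, h⟩ := hI _ hP.2.1 2
  have hs : Summable (fun m : ℤ => (C * (1 + |u|) ^ 2 / X ^ 2) * (1 / (m : ℝ) ^ 2)) :=
    (Real.summable_one_div_int_pow.2 (by norm_num)).mul_left _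
  refine Summable.of_norm_bounded_eventually hs ?_
  have h0 : ∀ᶠ m : ℤ in Filter.cofinite, m ≠ 0 := by
    rw [Filter.eventually_cofinite]
    refine (Set.finite_singleton (0 : ℤ)).subset ?_
    intro m hm
    simpa using hm
  filter_upwards [h0] with m hm
  have hm' : (m : ℝ) ≠ 0 := by exact_mod_cast hm
  have h1 := h u ((m : ℝ) * X)
  have h2 : 0 < |(m : ℝ) * X| ^ 2 := by
    have : 0 < |(m : ℝ) * X| := abs_pos.2 (mul_ne_zero hm' hX.ne')
    positivity
  have h3 : ‖HH u ((m : ℝ) * X)‖ ≤ C * (1 + |u|) ^ 2 / |(m : ℝ) * X| ^ 2 := by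
    rw [le_div_iff₀ h2]
    exact h1
  refine h3.trans (le_of_eq ?_)
  rw [sq_abs, mul_pow]
  field_simp

theorem POI (hP : PHS_stmt) (hI : IBU_stmt) : POI_stmt := by
  intro X u hX
  have hs := POI_summable hP hI hX u
  refine ⟨hs, ?_⟩
  have hF : ∀ n : ℤ, 𝓕 (POI_g X u) (n : ℝ) =
      (X : ℂ) * (Complex.exp (-(((u * Real.log X : ℝ) : ℂ) * I)) * HH u ((n : ℝ) * X)) :=
    fun n => POI_fourier hP hX u n
  have hO : Asymptotics.IsBigO (Filter.cocompact ℝ) (POI_g X u)
      (fun x : ℝ => |x| ^ (-(2 : ℝ))) := by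
    have h1 : POI_g X u =ᶠ[Filter.cocompact ℝ] (fun _ => (0 : ℂ)) := by
      have h2 : (Set.Icc (0 : ℝ) (64 * X))ᶜ ∈ Filter.cocompact ℝ :=
        isCompact_Icc.compl_mem_cocompact
      filter_upwards [h2] with y hy
      rcases le_or_gt y (X / 2) with h3 | h3
      · exact POI_g_left hP hX h3
      · refine POI_g_right hP hX ?_
        by_contra h4
        exact hy ⟨by linarith, (not_le.1 h4).le⟩
    exact (Asymptotics.isBigO_zero _ _).congr' h1.symm (Filter.EventuallyEq.refl _ _)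
  have hP2 := Real.tsum_eq_tsum_fourier_of_rpow_decay_of_summable (POI_g_cont hP hX u)
    (b := 2) (by norm_num) hO (by
      simp_rw [hF]
      exact (hs.mul_left _).mul_left _) 0
  rw [← POI_sum hP hX u, hP2]
  have h3 : ∀ n : ℤ, 𝓕 (POI_g X u) (n : ℝ) * fourier n ((0 : ℝ) : UnitAddCircle) =
      (X : ℂ) * (Complex.exp (-(((u * Real.log X : ℝ) : ℂ) * I)) * HH u ((n : ℝ) * X)) := by
    intro n
    rw [hF n, fourier_coe_apply]
    simp
  rw [tsum_congr h3, tsum_mul_left, tsum_mul_left]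
  ring

end Pool.Agent.ZD
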