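import Pool.Agent.helper90.ZD.SpecB

/-!
# Project zd (MP_4467b5_nt), module BS0
-/

set_option autoImplicit false

open Complex MeasureTheory

namespace Pool.Agent.ZD

open Pool.Agent.helper84.DM Pool.Agent.helper78.ED Pool.Agent.DH

theorem BS0 : BS0_stmt := by
  intro ε hε hε1
  refine ⟨2 ^ (25 : ℕ), fun T hT b w R _ hsg hR hRT => ?_⟩
  have hT1 : 1 ≤ T := le_trans (by norm_num) hT
  have hT0 : 0 < T := by linarith
  have h1 : 2 * w ≤ sg w := le_max_left _ _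
  have h2 : 3 / 2 * w + 1 / 3 ≤ sg w := le_max_right _ _
  set E : ℝ := T ^ (b - 1 / 20 + ε) with hE
  have hA : R ≤ E := hRT.trans (Real.rpow_le_rpow_of_exponent_le hT1 (by linarith))
  have hB : R ^ (1 / 2 : ℝ) * T ^ ((1 + ε / 100) / 3) ≤ E := by
    have h3 : R ^ (1 / 2 : ℝ) ≤ T ^ ((w + ε) * (1 / 2)) := by
      rw [Real.rpow_mul hT0.le]
      exact Real.rpow_le_rpow hR hRT (by norm_num)
    calc R ^ (1 / 2 : ℝ) * T ^ ((1 + ε / 100) / 3)
        ≤ T ^ ((w + ε) * (1 / 2)) * T ^ ((1 + ε / 100) / 3) :=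
          mul_le_mul_of_nonneg_right h3 (Real.rpow_nonneg hT0.le _)
      _ = T ^ ((w + ε) * (1 / 2) + (1 + ε / 100) / 3) := (Real.rpow_add hT0 _ _).symm
      _ ≤ E := Real.rpow_le_rpow_of_exponent_le hT1 (by linarith)
  have hC : 2 * E ≤ T ^ b := by
    have h4 : (2 : ℝ) ≤ T ^ (1 / 25 : ℝ) := by
      have h5 : ((2 : ℝ) ^ (25 : ℕ)) ^ (1 / 25 : ℝ) = 2 := by
        rw [← Real.rpow_natCast, ← Real.rpow_mul (by norm_num)]
        norm_num
      rw [← h5]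
      exact Real.rpow_le_rpow (by positivity) hT (by norm_num)
    have hE0 : 0 ≤ E := Real.rpow_nonneg hT0.le _
    calc 2 * E ≤ T ^ (1 / 25 : ℝ) * E := mul_le_mul_of_nonneg_right h4 hE0
      _ = T ^ (1 / 25 + (b - 1 / 20 + ε)) := (Real.rpow_add hT0 _ _).symm
      _ ≤ T ^ b := Real.rpow_le_rpow_of_exponent_le hT1 (by linarith)
  have hR32 : R ^ (3 / 2 : ℝ) = R * R ^ (1 / 2 : ℝ) := by
    rw [show (3 / 2 : ℝ) = 1 + 1 / 2 by norm_num,
      Real.rpow_add_of_nonneg hR (by norm_num) (by norm_num), Real.rpow_one]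
  calc R ^ 2 + R ^ (3 / 2 : ℝ) * T ^ ((1 + ε / 100) / 3)
      = R * (R + R ^ (1 / 2 : ℝ) * T ^ ((1 + ε / 100) / 3)) := by rw [hR32]; ring
    _ ≤ R * T ^ b := mul_le_mul_of_nonneg_left (by linarith) hR

end Pool.Agent.ZD
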