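import Pool.Agent.helper86.ZD.SpecC
import Pool.Agent.helper63.ED.LC

/-!
# Project zd (MP_4467b5_nt), module CSEP: a separated set of ordinates
-/

set_option autoImplicit false

open Complex MeasureTheory

namespace Pool.Agent.ZD

open Pool.Agent.helper84.DM Pool.Agent.helper78.ED Pool.Agent.DH

/-- A set of natural numbers has a subset without neighbours with at least half of its elements. -/
theorem CSEP_parity (A : Finset ℕ) : ∃ A' : Finset ℕ, A' ⊆ A ∧ A.card ≤ 2 * A'.card ∧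
    ∀ j ∈ A', ∀ j' ∈ A', j ≠ j' → j + 2 ≤ j' ∨ j' + 2 ≤ j := by
  classical
  have h := Finset.card_filter_add_card_filter_not (s := A) (fun j => j % 2 = 0)
  rcases le_total (A.filter (fun j => ¬ j % 2 = 0)).card (A.filter (fun j => j % 2 = 0)).card
    with h1 | h1
  · refine ⟨A.filter (fun j => j % 2 = 0), Finset.filter_subset _ _, by omega, ?_⟩
    intro j hj j' hj' hne
    have := (Finset.mem_filter.1 hj).2
    have := (Finset.mem_filter.1 hj').2
    omega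
  · refine ⟨A.filter (fun j => ¬ j % 2 = 0), Finset.filter_subset _ _, by omega, ?_⟩
    intro j hj j' hj' hne
    have := (Finset.mem_filter.1 hj).2
    have := (Finset.mem_filter.1 hj').2
    omega

/-- The number of zeros with ordinates in `[j D, (j+1) D)`. -/
theorem CSEP_fibre {T D B : ℝ} {Z : Finset ℂ} (hT : 4 ≤ T) (hD1 : 1 ≤ D) (hD2 : D ≤ T / 2)
    (hZ : ∀ ρ ∈ Z, T ≤ ρ.im ∧ ρ.im ≤ 2 * T) (hB : 0 ≤ B)
    (hloc : ∀ t : ℝ, 1 ≤ t → t ≤ 3 * T → (loc Z t : ℝ) ≤ B) (j : ℕ)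
    (S : Finset ℂ) (hS : S ⊆ Z) (hSj : ∀ ρ ∈ S, ⌊ρ.im / D⌋₊ = j) :
    (S.card : ℝ) ≤ 2 * D * B := by
  classical
  have hD0 : 0 < D := by linarith
  rcases S.eq_empty_or_nonempty with h0 | ⟨ρ₀, hρ₀⟩
  · rw [h0, Finset.card_empty, Nat.cast_zero]
    positivity
  have key : ∀ ρ ∈ S, (j : ℝ) * D ≤ ρ.im ∧ ρ.im < (j + 1) * D := by
    intro ρ hρ
    have h1 := hSj ρ hρ
    have h2 := (hZ ρ (hS hρ)).1
    have h3 : 0 ≤ ρ.im / D := div_nonneg (by linarith) hD0.le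
    have h4 := Nat.floor_le h3
    have h5 := Nat.lt_floor_add_one (ρ.im / D)
    rw [h1] at h4 h5
    exact ⟨(le_div_iff₀ hD0).1 h4, (div_lt_iff₀ hD0).1 h5⟩
  obtain ⟨h1, h2⟩ := key ρ₀ hρ₀
  obtain ⟨h3, h4⟩ := hZ ρ₀ (hS hρ₀)
  have hjD : T - D ≤ j * D := by
    have : ((j : ℝ) + 1) * D = j * D + D := by ring
    linarith
  have hsub : S ⊆ (Finset.range (⌊D⌋₊ + 1)).biUnion (fun i =>
      Z.filter (fun z => (j * D + i : ℝ) ≤ z.im ∧ z.im ≤ (j * D + i : ℝ) + 1)) := by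
    intro ρ hρ
    obtain ⟨k1, k2⟩ := key ρ hρ
    have h5 : 0 ≤ ρ.im - j * D := by linarith
    have h6 := Nat.floor_le h5
    have h7 := Nat.lt_floor_add_one (ρ.im - j * D)
    refine Finset.mem_biUnion.2 ⟨⌊ρ.im - j * D⌋₊, ?_, ?_⟩
    · refine Finset.mem_range.2 (Nat.lt_succ_of_le (Nat.floor_le_floor ?_))
      have : ((j : ℝ) + 1) * D = j * D + D := by ring
      linarith
    · exact Finset.mem_filter.2 ⟨hS hρ, by linarith, by linarith⟩
  have hcard := (Finset.card_le_card hsub).trans Finset.card_biUnion_le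
  have hcard' : (S.card : ℝ) ≤ ∑ i ∈ Finset.range (⌊D⌋₊ + 1),
      ((Z.filter (fun z => (j * D + i : ℝ) ≤ z.im ∧ z.im ≤ (j * D + i : ℝ) + 1)).card : ℝ) := by
    exact_mod_cast hcard
  refine hcard'.trans ?_
  have hfl : (⌊D⌋₊ : ℝ) ≤ D := Nat.floor_le hD0.le
  calc ∑ i ∈ Finset.range (⌊D⌋₊ + 1),
      ((Z.filter (fun z => (j * D + i : ℝ) ≤ z.im ∧ z.im ≤ (j * D + i : ℝ) + 1)).card : ℝ)
      ≤ ∑ _i ∈ Finset.range (⌊D⌋₊ + 1), B := by
        refine Finset.sum_le_sum fun i hi => ?_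
        have hi1 : i ≤ ⌊D⌋₊ := Nat.lt_succ_iff.1 (Finset.mem_range.1 hi)
        have hi2 : (i : ℝ) ≤ D := (Nat.cast_le.2 hi1).trans hfl
        have hi3 : (0 : ℝ) ≤ i := Nat.cast_nonneg _
        have h8 := hloc (j * D + i) (by linarith) (by linarith)
        refine le_trans (le_of_eq ?_) h8
        unfold loc
        congr 2
    _ = ((⌊D⌋₊ : ℝ) + 1) * B := by
        rw [Finset.sum_const, Finset.card_range, nsmul_eq_mul]
        push_cast
        ring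
    _ ≤ (2 * D) * B := mul_le_mul_of_nonneg_right (by linarith) hB

theorem CSEP : CSEP_stmt := by
  classical
  obtain ⟨C, hC, hloc⟩ := local_count
  intro ϑ hϑ hϑ2
  refine ⟨4 * C / ϑ, 4, by positivity, ?_⟩
  intro T hT σ hσ Z hZ
  have hT0 : 0 < T := by linarith
  have hT1 : 1 ≤ T := by linarith
  set D : ℝ := T ^ ϑ with hDdef
  have hD1 : 1 ≤ D := Real.one_le_rpow hT1 hϑ.le
  have hD0 : 0 < D := by linarith
  have hD2 : D ≤ T / 2 := by
    have h1 : D ≤ T ^ (1 / 2 : ℝ) := Real.rpow_le_rpow_of_exponent_le hT1 hϑ2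
    have h2 : T ^ (1 / 2 : ℝ) = Real.sqrt T := (Real.sqrt_eq_rpow T).symm
    have h3 : Real.sqrt T * Real.sqrt T = T := Real.mul_self_sqrt hT0.le
    have h4 : 2 ≤ Real.sqrt T := by
      rw [Real.le_sqrt (by norm_num) hT0.le]
      linarith
    have h5 : 2 * Real.sqrt T ≤ Real.sqrt T * Real.sqrt T :=
      mul_le_mul_of_nonneg_right h4 (by linarith)
    linarith
  have hlog : 0 ≤ Real.log T := Real.log_nonneg hT1
  have hlocT : ∀ t : ℝ, 1 ≤ t → t ≤ 3 * T → (loc Z t : ℝ) ≤ C * Real.log T :=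
    hloc T (by linarith) Z fun ρ hρ => ⟨(hZ ρ hρ).1, hσ.trans (hZ ρ hρ).2.1⟩
  have hB : 0 ≤ C * Real.log T := by positivity
  obtain ⟨A', hA', hcard, hsep⟩ := CSEP_parity (Z.image fun ρ => ⌊ρ.im / D⌋₊)
  have hex : ∀ j ∈ A', ∃ ρ ∈ Z, ⌊ρ.im / D⌋₊ = j := fun j hj => Finset.mem_image.1 (hA' hj)
  choose! r hrZ hrj using hex
  have hinj : ∀ j ∈ A', ∀ j' ∈ A', (r j).im = (r j').im → j = j' := by
    intro j hj j' hj' h
    rw [← hrj j hj, ← hrj j' hj', h]
  have hlt : ∀ j ∈ A', ∀ j' ∈ A', j + 2 ≤ j' → D ≤ (r j').im - (r j).im := by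
    intro j hj j' hj' h
    have h1 := Nat.lt_floor_add_one ((r j).im / D)
    rw [hrj j hj, div_lt_iff₀ hD0] at h1
    have h2 : 0 ≤ (r j').im / D := by
      have := (hZ _ (hrZ j' hj')).2.2.1
      have : 0 ≤ (r j').im := by linarith
      positivity
    have h3 := Nat.floor_le h2
    rw [hrj j' hj', le_div_iff₀ hD0] at h3
    have h4 : (j : ℝ) + 2 ≤ j' := by exact_mod_cast h
    have h5 : ((j : ℝ) + 2) * D ≤ j' * D := mul_le_mul_of_nonneg_right h4 hD0.le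
    have h6 : ((j : ℝ) + 2) * D = (j + 1) * D + D := by ring
    linarith
  refine ⟨A'.image fun j => (r j).im, ⟨?_, ?_⟩, ?_, ?_⟩
  · intro t ht
    obtain ⟨j, hj, rfl⟩ := Finset.mem_image.1 ht
    exact ⟨(hZ _ (hrZ j hj)).2.2.1, (hZ _ (hrZ j hj)).2.2.2⟩
  · intro t ht t' ht' hne
    obtain ⟨j, hj, rfl⟩ := Finset.mem_image.1 ht
    obtain ⟨j', hj', rfl⟩ := Finset.mem_image.1 ht'
    have hjj : j ≠ j' := fun h => hne (by rw [h])
    rcases hsep j hj j' hj' hjj with h | h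
    · rw [abs_sub_comm]
      exact (hlt j hj j' hj' h).trans (le_abs_self _)
    · exact (hlt j' hj' j hj h).trans (le_abs_self _)
  · intro t ht
    obtain ⟨j, hj, rfl⟩ := Finset.mem_image.1 ht
    exact ⟨r j, hrZ j hj, rfl⟩
  · have hWcard : (A'.image fun j => (r j).im).card = A'.card :=
      Finset.card_image_of_injOn fun j hj j' hj' h => hinj j hj j' hj' h
    have h1 : (Z.card : ℝ) ≤ ∑ _j ∈ Z.image (fun ρ => ⌊ρ.im / D⌋₊), 2 * D * (C * Real.log T) := by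
      rw [Finset.card_eq_sum_card_image (fun ρ : ℂ => ⌊ρ.im / D⌋₊) Z]
      push_cast
      refine Finset.sum_le_sum fun j _ => ?_
      exact CSEP_fibre hT hD1 hD2 (fun ρ hρ => (hZ ρ hρ).2.2) hB hlocT j _
        (Finset.filter_subset _ _) fun ρ hρ => (Finset.mem_filter.1 hρ).2
    rw [Finset.sum_const, nsmul_eq_mul] at h1
    have h2 : ((Z.image fun ρ => ⌊ρ.im / D⌋₊).card : ℝ) ≤ 2 * (A'.card : ℝ) := by
      exact_mod_cast hcard
    have h3 : Real.log T ≤ D / ϑ := Real.log_le_rpow_div hT0.le hϑ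
    have h4 : T ^ (2 * ϑ) = D * D := by
      rw [hDdef, ← Real.rpow_add hT0]
      congr 1
      ring
    have hA0 : (0 : ℝ) ≤ A'.card := Nat.cast_nonneg _
    rw [hWcard, h4]
    calc (Z.card : ℝ) ≤ ((Z.image fun ρ => ⌊ρ.im / D⌋₊).card : ℝ) *
          (2 * D * (C * Real.log T)) := h1
      _ ≤ (2 * (A'.card : ℝ)) * (2 * D * (C * (D / ϑ))) := by gcongr
      _ = 4 * C / ϑ * (D * D) * A'.card := by
          field_simp
          ring

end Pool.Agent.ZD
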